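import Pool.Agent.R449.Cyclic

/-!
# MP_0f2923_nt: positive reals with full difference set and null set of values `2x - y`

There is a set `E` of positive reals with `E - E = ℝ` such that `{2a - b : a, b ∈ E}` is a Lebesgue
null set.

A finite cyclic model (`Pool/Agent/R449/Cyclic.lean`): for some `q` there is `A ⊆ ℤ/q` with
`A - A = ℤ/q` such that `{2x - y : x, y ∈ A}` has at most `q/10` elements.  `E` is the set of the
positive reals whose distance to some integer is `∑ d_i q^(-i)` with `0 ≤ d_i < 2q`, `d_i mod q ∈ A`.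
-/

set_option autoImplicit false

open Finset MeasureTheory Filter Topology

namespace Pool.Agent.Results.MP_0f2923_nt.NullSet

open Pool.Agent.R449

/-- the real number with digits `d` -/
noncomputable def val (q : ℕ) (d : ℕ → ℕ) : ℝ := ∑' i, (d i : ℝ) / (q : ℝ) ^ (i + 1)

/-- admissible digits -/
def Dig (q : ℕ) (A : Set (ZMod q)) (n : ℕ) : Prop := n < 2 * q ∧ (n : ZMod q) ∈ A

/-- the digit set in the line -/
def C (q : ℕ) (A : Set (ZMod q)) : Set ℝ := {x | ∃ d : ℕ → ℕ, (∀ i, Dig q A (d i)) ∧ x = val q d}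

theorem summable_geo {q : ℕ} (hq : 2 ≤ q) : Summable (fun i : ℕ => (2 * (q : ℝ)) / (q : ℝ) ^ (i + 1)) := by
  have hq0 : (2 : ℝ) ≤ q := by exact_mod_cast hq
  have h1 : Summable (fun i : ℕ => (2 : ℝ) * (1 / q) ^ i) := by
    apply Summable.mul_left
    apply summable_geometric_of_lt_one (by positivity)
    rw [div_lt_one (by linarith)]
    linarith
  refine h1.congr fun i => ?_
  have : (q : ℝ) ≠ 0 := by linarith
  rw [one_div, inv_pow, pow_succ]
  field_simp

theorem summable_val {q : ℕ} (hq : 2 ≤ q) {A : Set (ZMod q)} {d : ℕ → ℕ} (hd : ∀ i, Dig q A (d i)) :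
    Summable (fun i : ℕ => (d i : ℝ) / (q : ℝ) ^ (i + 1)) := by
  have hq0 : (2 : ℝ) ≤ q := by exact_mod_cast hq
  refine Summable.of_nonneg_of_le (fun i => by positivity) (fun i => ?_) (summable_geo hq)
  apply div_le_div_of_nonneg_right _ (by positivity)
  have := (hd i).1
  exact_mod_cast this.le

theorem val_nonneg (q : ℕ) (d : ℕ → ℕ) : 0 ≤ val q d := tsum_nonneg fun i => by positivity

theorem val_le {q : ℕ} (hq : 2 ≤ q) {A : Set (ZMod q)} {d : ℕ → ℕ} (hd : ∀ i, Dig q A (d i)) :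
    val q d ≤ 4 := by
  have hq0 : (2 : ℝ) ≤ q := by exact_mod_cast hq
  have h1 : val q d ≤ ∑' i : ℕ, (2 * (q : ℝ)) / (q : ℝ) ^ (i + 1) := by
    apply (summable_val hq hd).tsum_le_tsum _ (summable_geo hq)
    intro i
    apply div_le_div_of_nonneg_right _ (by positivity)
    have := (hd i).1
    exact_mod_cast this.le
  have h2 : ∑' i : ℕ, (2 * (q : ℝ)) / (q : ℝ) ^ (i + 1) = 2 * (1 - 1 / (q : ℝ))⁻¹ := by
    rw [← tsum_geometric_of_lt_one (r := 1 / (q : ℝ)) (by positivity)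
      (by rw [div_lt_one (by linarith)]; linarith), ← tsum_mul_left]
    congr 1
    funext i
    have : (q : ℝ) ≠ 0 := by linarith
    rw [one_div, inv_pow, pow_succ]
    field_simp
  rw [h2] at h1
  have h3 : (1 - 1 / (q : ℝ))⁻¹ ≤ 2 := by
    rw [inv_le_comm₀ (by
      rw [sub_pos, div_lt_one (by linarith)]; linarith) (by norm_num)]
    have : 1 / (q : ℝ) ≤ 1 / 2 := one_div_le_one_div_of_le (by norm_num) hq0
    linarith
  linarith

theorem val_succ {q : ℕ} (hq : 2 ≤ q) {A : Set (ZMod q)} {d : ℕ → ℕ} (hd : ∀ i, Dig q A (d i)) :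
    val q d = (d 0 + val q (fun i => d (i + 1))) / q := by
  have hq0 : (2 : ℝ) ≤ q := by exact_mod_cast hq
  have hq1 : (q : ℝ) ≠ 0 := by linarith
  unfold val
  rw [(summable_val hq hd).tsum_eq_zero_add, add_div, ← tsum_div_const]
  congr 1
  · simp
  · congr 1
    funext i
    rw [pow_succ, div_div]

/-- the set `{2x - y : x, y ∈ C}` -/
def D (q : ℕ) (A : Set (ZMod q)) : Set ℝ := {t | ∃ x ∈ C q A, ∃ y ∈ C q A, t = 2 * x - y}

open Classical in
/-- the values `2d - d'` of pairs of digits -/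
noncomputable def Wset (q : ℕ) (A : Set (ZMod q)) : Finset ℤ :=
  (Icc (-(2 * (q : ℤ))) (4 * q)).filter
    (fun w => ∃ m n : ℕ, Dig q A m ∧ Dig q A n ∧ w = 2 * (m : ℤ) - n)

theorem card_Wset {q : ℕ} (hq : 2 ≤ q) (A : Set (ZMod q)) (G : Finset (ZMod q))
    (hG : ∀ x ∈ A, ∀ y ∈ A, 2 * x - y ∈ G) : (Wset q A).card ≤ G.card * 7 := by
  classical
  have : NeZero q := ⟨by omega⟩
  have h : (Wset q A).card ≤ (G ×ˢ (Icc (-2 : ℤ) 4)).card := by
    apply card_le_card_of_injOn (fun w : ℤ => ((w : ZMod q), w / (q : ℤ)))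
    · intro w hw
      unfold Wset at hw
      rw [mem_coe, mem_filter, mem_Icc] at hw
      obtain ⟨⟨h1, h2⟩, m, n, hm, hn, hmn⟩ := hw
      rw [mem_coe, mem_product, mem_Icc]
      refine ⟨?_, ?_, ?_⟩
      · show ((w : ℤ) : ZMod q) ∈ G
        rw [hmn]
        push_cast
        exact hG _ hm.2 _ hn.2
      · show -2 ≤ w / (q : ℤ)
        rw [Int.le_ediv_iff_mul_le (by omega)]
        linarith
      · show w / (q : ℤ) ≤ 4
        have : w / (q : ℤ) ≤ (4 * q) / (q : ℤ) := Int.ediv_le_ediv (by omega) h2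
        rwa [Int.mul_ediv_cancel _ (by omega)] at this
    · intro w _ w' _ h
      have e1 : (w : ZMod q) = (w' : ZMod q) := congrArg Prod.fst h
      have e2 : w / (q : ℤ) = w' / (q : ℤ) := congrArg Prod.snd h
      rw [ZMod.intCast_eq_intCast_iff] at e1
      have e3 : w % (q : ℤ) = w' % (q : ℤ) := e1
      rw [← Int.mul_ediv_add_emod w q, ← Int.mul_ediv_add_emod w' q, e2, e3]
  rw [card_product, Int.card_Icc] at h
  simpa using h

theorem D_subset {q : ℕ} (hq : 2 ≤ q) (A : Set (ZMod q)) :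
    D q A ⊆ ⋃ w ∈ Wset q A, (fun t : ℝ => (1 / (q : ℝ)) • t) '' ((fun t : ℝ => t + (w : ℝ)) '' D q A) := by
  rintro t ⟨x, ⟨d, hd, rfl⟩, y, ⟨d', hd', rfl⟩, rfl⟩
  simp only [Set.mem_iUnion]
  refine ⟨2 * (d 0 : ℤ) - d' 0, ?_, 2 * val q (fun i => d (i + 1)) - val q (fun i => d' (i + 1)) +
    ((2 * (d 0 : ℤ) - d' 0 : ℤ) : ℝ), ⟨2 * val q (fun i => d (i + 1)) - val q (fun i => d' (i + 1)),
    ⟨_, ⟨_, fun i => hd (i + 1), rfl⟩, _, ⟨_, fun i => hd' (i + 1), rfl⟩, rfl⟩, rfl⟩, ?_⟩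
  · classical
    unfold Wset
    rw [mem_filter, mem_Icc]
    have h1 := (hd 0).1
    have h2 := (hd' 0).1
    exact ⟨⟨by omega, by omega⟩, d 0, d' 0, hd 0, hd' 0, rfl⟩
  · show (1 / (q : ℝ)) • (2 * val q (fun i => d (i + 1)) - val q (fun i => d' (i + 1)) +
      ((2 * (d 0 : ℤ) - d' 0 : ℤ) : ℝ)) = 2 * val q d - val q d'
    rw [val_succ hq hd, val_succ hq hd', smul_eq_mul]
    push_cast
    ring

theorem D_null {q : ℕ} (hq : 2 ≤ q) (A : Set (ZMod q)) (G : Finset (ZMod q))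
    (hG : ∀ x ∈ A, ∀ y ∈ A, 2 * x - y ∈ G) (hcard : 10 * G.card ≤ q) : volume (D q A) = 0 := by
  have hq0 : (2 : ℝ) ≤ q := by exact_mod_cast hq
  have hfin : volume (D q A) ≠ ⊤ := by
    have hsub : D q A ⊆ Set.Icc (-4) 8 := by
      rintro t ⟨x, ⟨d, hd, rfl⟩, y, ⟨d', hd', rfl⟩, rfl⟩
      have h1 := val_nonneg q d
      have h2 := val_nonneg q d'
      have h3 := val_le hq hd
      have h4 := val_le hq hd'
      exact ⟨by linarith, by linarith⟩
    have := measure_mono (μ := volume) hsub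
    rw [Real.volume_Icc] at this
    exact ne_top_of_le_ne_top ENNReal.ofReal_ne_top this
  have hle : volume (D q A) ≤ ((Wset q A).card : ENNReal) * (ENNReal.ofReal (1 / (q : ℝ)) *
      volume (D q A)) := by
    calc volume (D q A) ≤ volume (⋃ w ∈ Wset q A,
          (fun t : ℝ => (1 / (q : ℝ)) • t) '' ((fun t : ℝ => t + (w : ℝ)) '' D q A)) :=
          measure_mono (D_subset hq A)
      _ ≤ ∑ w ∈ Wset q A, volume
          ((fun t : ℝ => (1 / (q : ℝ)) • t) '' ((fun t : ℝ => t + (w : ℝ)) '' D q A)) :=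
          measure_biUnion_finset_le _ _
      _ = ∑ w ∈ Wset q A, ENNReal.ofReal (1 / (q : ℝ)) * volume (D q A) := by
          apply sum_congr rfl
          intro w _
          rw [Set.image_smul, Measure.addHaar_smul, Set.image_add_right, measure_preimage_add_right]
          congr 2
          rw [Module.finrank_self, pow_one, abs_of_nonneg (by positivity)]
      _ = _ := by rw [sum_const, nsmul_eq_mul]
  have h1 : ((Wset q A).card : ℝ) * (1 / q) ≤ 7 / 10 := by
    have h2 := card_Wset hq A G hG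
    rw [mul_one_div, div_le_iff₀ (by linarith)]
    have h3 : ((Wset q A).card : ℝ) ≤ G.card * 7 := by exact_mod_cast h2
    have h4 : (10 : ℝ) * G.card ≤ q := by exact_mod_cast hcard
    linarith
  obtain ⟨v, hv⟩ : ∃ v : ℝ, v = (volume (D q A)).toReal := ⟨_, rfl⟩
  have hv0 : 0 ≤ v := by rw [hv]; exact ENNReal.toReal_nonneg
  have h2 : v ≤ ((Wset q A).card : ℝ) * (1 / q * v) := by
    have h3 := ENNReal.toReal_mono (by
      apply ENNReal.mul_ne_top (ENNReal.natCast_ne_top _)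
      exact ENNReal.mul_ne_top ENNReal.ofReal_ne_top hfin) hle
    rw [ENNReal.toReal_mul, ENNReal.toReal_mul, ENNReal.toReal_natCast,
      ENNReal.toReal_ofReal (by positivity), ← hv] at h3
    exact h3
  have h3 : v = 0 := by nlinarith
  rw [hv, ENNReal.toReal_eq_zero_iff] at h3
  exact h3.resolve_right hfin

/-- differences of digits -/
theorem exists_dig {q : ℕ} (hq : 2 ≤ q) (A : Set (ZMod q))
    (hA : ∀ w : ZMod q, ∃ x ∈ A, ∃ y ∈ A, x - y = w) (z : ℤ) (hz : |z| ≤ q) :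
    ∃ m n : ℕ, Dig q A m ∧ Dig q A n ∧ (m : ℤ) - n = z := by
  have : NeZero q := ⟨by omega⟩
  have key : ∀ z : ℤ, 0 ≤ z → z ≤ q → ∃ m n : ℕ, Dig q A m ∧ Dig q A n ∧ (m : ℤ) - n = z := by
    intro z h0 h1
    obtain ⟨x, hx, y, hy, hxy⟩ := hA (z : ZMod q)
    have hx1 := ZMod.val_lt x
    have hy1 := ZMod.val_lt y
    have h2 : (((x.val : ℤ) - y.val - z : ℤ) : ZMod q) = 0 := by
      push_cast
      rw [ZMod.natCast_zmod_val, ZMod.natCast_zmod_val, hxy, sub_self]
    rw [ZMod.intCast_zmod_eq_zero_iff_dvd] at h2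
    obtain ⟨c, hc⟩ := h2
    have hq' : (0 : ℤ) < q := by omega
    have hc1 : c = 0 ∨ c = -1 := by
      have h3 : c < 1 := by nlinarith
      have h4 : -2 < c := by nlinarith
      omega
    rcases hc1 with rfl | rfl
    · exact ⟨x.val, y.val, ⟨by omega, by rwa [ZMod.natCast_zmod_val]⟩,
        ⟨by omega, by rwa [ZMod.natCast_zmod_val]⟩, by omega⟩
    · refine ⟨x.val + q, y.val, ⟨by omega, ?_⟩, ⟨by omega, ?_⟩, ?_⟩
      · rw [Nat.cast_add, ZMod.natCast_self, add_zero, ZMod.natCast_zmod_val]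
        exact hx
      · rwa [ZMod.natCast_zmod_val]
      · push_cast
        linarith
  rw [abs_le] at hz
  rcases le_total 0 z with h | h
  · exact key z h hz.2
  · obtain ⟨m, n, hm, hn, hmn⟩ := key (-z) (by omega) (by omega)
    exact ⟨n, m, hn, hm, by omega⟩

/-- every real in `[-1/2, 1/2]` is a difference of two elements of `C` -/
theorem exists_diff {q : ℕ} (hq : 2 ≤ q) (A : Set (ZMod q))
    (hA : ∀ w : ZMod q, ∃ x ∈ A, ∃ y ∈ A, x - y = w) (r : ℝ) (hr : |r| ≤ 1 / 2) :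
    ∃ x ∈ C q A, ∃ y ∈ C q A, x - y = r := by
  have hq0 : (2 : ℝ) ≤ q := by exact_mod_cast hq
  -- the remainders
  let R : ℕ → ℝ := fun n => Nat.rec r (fun _ s => q * s - round (q * s)) n
  have hR0 : R 0 = r := rfl
  have hR1 : ∀ n, R (n + 1) = q * R n - round (q * R n) := fun n => rfl
  have hR : ∀ n, |R n| ≤ 1 / 2 := by
    intro n
    cases n with
    | zero => exact hr
    | succ n => rw [hR1]; exact abs_sub_round _
  have hDle : ∀ n, |round (q * R n)| ≤ (q : ℤ) := by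
    intro n
    have h1 := abs_sub_round (q * R n)
    have h2 : |q * R n| ≤ q / 2 := by
      rw [abs_mul, abs_of_nonneg (by linarith : (0 : ℝ) ≤ q)]
      have := hR n
      nlinarith
    have h3 : |((round (q * R n) : ℤ) : ℝ)| ≤ q := by
      rw [abs_le] at h1 h2 ⊢
      constructor <;> linarith [h1.1, h1.2, h2.1, h2.2]
    exact_mod_cast h3
  choose m n hm hn hmn using fun i => exists_dig hq A hA (round (q * R i)) (hDle i)
  refine ⟨val q m, ⟨m, hm, rfl⟩, val q n, ⟨n, hn, rfl⟩, ?_⟩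
  have hsum := (summable_val hq hm).hasSum.sub (summable_val hq hn).hasSum
  have h1 := hsum.tendsto_sum_nat
  have h2 : ∀ k : ℕ, ∑ i ∈ range k, ((m i : ℝ) / (q : ℝ) ^ (i + 1) - (n i : ℝ) / (q : ℝ) ^ (i + 1)) =
      r - R k / (q : ℝ) ^ k := by
    intro k
    induction k with
    | zero => simp [hR0]
    | succ k ih =>
      rw [sum_range_succ, ih]
      have h3 : ((m k : ℝ) - n k) = round (q * R k) := by exact_mod_cast hmn k
      have hq1 : (q : ℝ) ≠ 0 := by linarith
      rw [← sub_div, h3, hR1, pow_succ]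
      field_simp
      ring
  have h3 : Tendsto (fun k : ℕ => r - R k / (q : ℝ) ^ k) atTop (𝓝 (r - 0)) := by
    apply Tendsto.sub tendsto_const_nhds
    apply squeeze_zero_norm (a := fun k : ℕ => (1 / 2) * (1 / (q : ℝ)) ^ k)
    · intro k
      rw [Real.norm_eq_abs, abs_div, abs_of_nonneg (by positivity : (0 : ℝ) ≤ (q : ℝ) ^ k), one_div_pow,
        mul_one_div]
      exact div_le_div_of_nonneg_right (hR k) (by positivity)
    · have := (tendsto_pow_atTop_nhds_zero_of_lt_one (r := 1 / (q : ℝ)) (by positivity) (by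
        rw [div_lt_one (by linarith)]; linarith)).const_mul (1 / 2)
      simpa using this
  rw [sub_zero] at h3
  have h4 : Tendsto (fun k : ℕ => ∑ i ∈ range k,
      ((m i : ℝ) / (q : ℝ) ^ (i + 1) - (n i : ℝ) / (q : ℝ) ^ (i + 1))) atTop (𝓝 r) := by
    simp_rw [h2]
    exact h3
  exact tendsto_nhds_unique h1 h4

/-- There is a set `E` of positive reals with `E - E = ℝ` such that the set of the values `2a - b`,
`a, b ∈ E`, has Lebesgue measure zero. -/
theorem result : ∃ E : Set ℝ, (∀ x ∈ E, 0 < x) ∧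
    {x : ℝ | ∃ a ∈ E, ∃ b ∈ E, x = a - b} = Set.univ ∧
    volume {x : ℝ | ∃ a ∈ E, ∃ b ∈ E, x = 2 * a - b} = 0 := by
  obtain ⟨q, hq, A, hA, G, hG, hcard⟩ := Cyclic.model
  refine ⟨{x : ℝ | 0 < x ∧ ∃ n : ℤ, x - (n : ℝ) ∈ C q A}, fun x hx => hx.1, ?_, ?_⟩
  · rw [Set.eq_univ_iff_forall]
    intro r
    obtain ⟨x, hx, y, hy, hxy⟩ := exists_diff hq A hA (r - round r) (abs_sub_round r)
    have hx0 : 0 ≤ x := by
      obtain ⟨d, _, rfl⟩ := hx
      exact val_nonneg q d
    have hy0 : 0 ≤ y := by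
      obtain ⟨d, _, rfl⟩ := hy
      exact val_nonneg q d
    have h1 : (0 : ℝ) < (|round r| + 1 : ℤ) := by
      have : (0 : ℤ) < |round r| + 1 := by positivity
      exact_mod_cast this
    have h2 : (0 : ℝ) < ((round r + (|round r| + 1) : ℤ) : ℝ) := by
      have : (0 : ℤ) < round r + (|round r| + 1) := by
        have := neg_abs_le (round r)
        omega
      exact_mod_cast this
    refine ⟨x + ((round r + (|round r| + 1) : ℤ) : ℝ), ⟨by linarith, round r + (|round r| + 1), by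
      simpa using hx⟩, y + ((|round r| + 1 : ℤ) : ℝ), ⟨by linarith, |round r| + 1, by
      simpa using hy⟩, ?_⟩
    push_cast
    linarith
  · have hsub : {x : ℝ | ∃ a ∈ {x : ℝ | 0 < x ∧ ∃ n : ℤ, x - (n : ℝ) ∈ C q A},
        ∃ b ∈ {x : ℝ | 0 < x ∧ ∃ n : ℤ, x - (n : ℝ) ∈ C q A}, x = 2 * a - b} ⊆
        ⋃ n : ℤ, (fun t : ℝ => t + (n : ℝ)) '' D q A := by
      rintro x ⟨a, ⟨-, n, ha⟩, b, ⟨-, k, hb⟩, rfl⟩
      rw [Set.mem_iUnion]
      refine ⟨2 * n - k, 2 * (a - n) - (b - k), ⟨a - n, ha, b - k, hb, rfl⟩, ?_⟩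
      push_cast
      ring
    refine measure_mono_null hsub ?_
    rw [measure_iUnion_null_iff]
    intro n
    rw [Set.image_add_right, measure_preimage_add_right]
    exact D_null hq A G hG hcard

end Pool.Agent.Results.MP_0f2923_nt.NullSet
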